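import Pool.Agent.W744.GL.Stm
import Pool.Agent.Helper503.Gp.NearExt
import Pool.Agent.Helper503.Gp.BF2

set_option autoImplicit false

open Metric Set Filter Topology Complex
open scoped ComplexConjugate

namespace Pool.Agent.W959.GL.TRIV
open Pool.Agent.Helper503.Gp Pool.Agent.W744.GL

theorem lam_char (h1 : S_ULCH) (U : Ultrafilter ℤ) {z : ℂ} (hz : 0 < z.im) :
    IsChar (lam U z) ∧
      ∀ f, Tendsto (fun a : ℤ => pt ((a : ℂ) + z) f) U (𝓝 (lam U z f)) := by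
  refine h1.2 ℤ U (fun a : ℤ => pt ((a : ℂ) + z)) (fun a => h1.1 _ ?_)
  simpa using hz

theorem mv_im {z ξ : ℂ} (hz : 0 < z.im) (hξ : 0 < ξ.im) : 0 < (mv z ξ).im := by
  unfold mv
  simp
  positivity

theorem mv_add (a : ℤ) (z ξ : ℂ) : mv ((a : ℂ) + z) ξ = (a : ℂ) + mv z ξ := by
  unfold mv
  simp
  ring

theorem char_union {m : (ℂ → ℂ) → ℂ} (hm : IsChar m) {ι : Type} {w : ι → ℂ}
    (hB : BlaOn w Set.univ) {A B : Set ι} (hd : Disjoint A B) :
    m (BF w (A ∪ B)) = m (BF w A) * m (BF w B) := by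
  have hA := ne_bla hB A
  have hB' := ne_bla hB B
  have h2 := (hm.2.1 _ (BF_mem hA) _ (BF_mem hB')).2.1
  rw [← h2]
  refine (hm.2.1 _ (BF_mem (ne_bla hB (A ∪ B))) _ (ne_mul (BF_mem hA) (BF_mem hB'))).2.2 ?_
  intro z hz
  exact BF_union hA hB' hd hz

theorem char_sub {m : (ℂ → ℂ) → ℂ} (hm : IsChar m) {ι : Type} {w : ι → ℂ}
    (hB : BlaOn w Set.univ) {A B : Set ι} (hd : B ⊆ A) :
    m (BF w A) = m (BF w B) * m (BF w (A \ B)) := by
  rw [← char_union hm hB disjoint_sdiff_right, union_sdiff_cancel hd]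

theorem key (h1 : S_ULCH) (h2 : S_TP) (U : Ultrafilter ℤ) (W : Ultrafilter Up)
    (m : (ℂ → ℂ) → ℂ) (hm : m = ulim W (fun ζ : Up => lam U ζ))
    (hfl : ∀ ξ : ℂ, 0 < ξ.im → ulim W (fun ζ : Up => lam U (mv ζ ξ)) = m)
    {ι : Type} {w : ι → ℂ} (hB : BlaOn w Set.univ)
    (hx : ∀ A : Set ι, m (BF w A) = 0 → 1 - 1 / 2 ≤ ‖m (BF w Aᶜ)‖)
    (E E' : Set ι) (hd : E' ⊆ Eᶜ)
    (hmu : ∀ e : ℂ, 0 < e.im → mu w E e ≤ 8 * mu w E' e + 1000) (h0 : m (BF w E) = 0) :
    False := by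
  have hmc : IsChar m ∧ ∀ f, Tendsto (fun ζ : Up => lam U ζ f) W (𝓝 (m f)) := by
    rw [hm]
    exact h1.2 Up W (fun ζ : Up => lam U ζ) (fun ζ => (lam_char h1 U ζ.2).1)
  have hE := ne_bla hB E
  have hE' := ne_bla hB E'
  have hEH := BF_mem hE
  have hEH' := BF_mem hE'
  -- the claim
  have claim : ∀ M : ℝ, ∀ᶠ ζ : Up in W, ∀ᶠ a : ℤ in U, M < mu w E ((a : ℂ) + ζ) := by
    intro M
    by_contra hcon
    rw [← Ultrafilter.eventually_not] at hcon
    obtain ⟨J, c, hc, hJ, htp⟩ := h2 M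
    have hev : ∀ᶠ ζ : Up in W, ∃ ξ ∈ (J : Set ℂ), ∀ᶠ a : ℤ in U,
        c ≤ ‖BF w E (cay ((a : ℂ) + mv ζ ξ))‖ := by
      filter_upwards [hcon] with ζ hζ
      rw [← Ultrafilter.eventually_not] at hζ
      have h3 : ∀ᶠ a : ℤ in U, ∃ ξ ∈ (J : Set ℂ), c ≤ ‖BF w E (cay ((a : ℂ) + mv ζ ξ))‖ := by
        filter_upwards [hζ] with a ha
        have him : 0 < ((a : ℂ) + (ζ : ℂ)).im := by simpa using ζ.2
        obtain ⟨ξ, hξ, hξ2⟩ := htp ι w E hE ((a : ℂ) + ζ) him (not_lt.1 ha)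
        refine ⟨ξ, hξ, ?_⟩
        rwa [mv_add] at hξ2
      exact (Ultrafilter.eventually_exists_mem_iff J.finite_toSet).1 h3
    obtain ⟨ξ, hξ, hξ2⟩ := (Ultrafilter.eventually_exists_mem_iff J.finite_toSet).1 hev
    have hξim := hJ ξ hξ
    have hch := h1.2 Up W (fun ζ : Up => lam U (mv ζ ξ))
      (fun ζ => (lam_char h1 U (mv_im ζ.2 hξim)).1)
    have ht := hch.2 (BF w E)
    rw [hfl ξ hξim, h0] at ht
    have ht2 := ht.norm
    rw [norm_zero] at ht2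
    have h4 : c ≤ 0 := by
      refine ge_of_tendsto ht2 ?_
      filter_upwards [hξ2] with ζ hζ
      have h5 := ((lam_char h1 U (mv_im ζ.2 hξim)).2 (BF w E)).norm
      refine ge_of_tendsto h5 ?_
      filter_upwards [hζ] with a ha
      rw [pt, if_pos hEH]
      exact ha
    linarith
  have hz : m (BF w E') = 0 := by
    have hK : ∀ K : ℝ, ‖m (BF w E')‖ ^ 2 ≤ Real.exp (-K) := by
      intro K
      have ht := ((hmc.2 (BF w E')).norm).pow 2
      refine le_of_tendsto ht ?_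
      filter_upwards [claim (8 * K + 1000)] with ζ hζ
      have h5 := (((lam_char h1 U ζ.2).2 (BF w E')).norm).pow 2
      refine le_of_tendsto h5 ?_
      filter_upwards [hζ] with a ha
      rw [pt, if_pos hEH']
      have him : 0 < ((a : ℂ) + (ζ : ℂ)).im := by simpa using ζ.2
      refine (BF_upper hE' him).trans ?_
      rw [Real.exp_le_exp]
      have := hmu _ him
      linarith
    have h6 : ‖m (BF w E')‖ ^ 2 ≤ 0 := by
      have h7 : Tendsto (fun K : ℝ => Real.exp (-K)) atTop (𝓝 0) :=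
        Real.tendsto_exp_neg_atTop_nhds_zero
      exact ge_of_tendsto' h7 hK
    have h8 : ‖m (BF w E')‖ = 0 := by
      have := sq_nonneg ‖m (BF w E')‖
      exact pow_eq_zero_iff two_ne_zero |>.1 (le_antisymm h6 this)
    exact norm_eq_zero.1 h8
  have h9 := hx E h0
  rw [char_sub hmc.1 hB hd, hz, zero_mul, norm_zero] at h9
  norm_num at h9

theorem main (h1 : S_ULCH) (h2 : S_TP) (h3 : S_SPLIT) : S_TRIV := by
  intro U W m hm hfl ψ hψ hgl
  by_contra hne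
  have hmc : IsChar m := by
    rw [hm]
    exact (h1.2 Up W (fun ζ : Up => lam U ζ) (fun ζ => (lam_char h1 U ζ.2).1)).1
  obtain ⟨ι, w, hB, h0, hx⟩ := near_ext hmc hψ hgl hne (1 / 2) (by norm_num)
  obtain ⟨A, C, D, hCA, hDA, hmu⟩ := h3 ι w hB
  have e1 : m (BF w Set.univ) = m (BF w A) * m (BF w Aᶜ) := by
    rw [← char_union hmc hB disjoint_compl_right, union_compl_self]
  rw [e1, char_sub hmc hB hCA, char_sub hmc hB hDA] at h0
  have K := key h1 h2 U W m hm hfl hB hx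
  rcases mul_eq_zero.1 h0 with h | h
  · rcases mul_eq_zero.1 h with h | h
    · exact K C (A \ C) (fun x hx => hx.2) (fun e he => (hmu e he).1) h
    · exact K (A \ C) C (fun x hx hx' => hx'.2 hx) (fun e he => (hmu e he).2.1) h
  · rcases mul_eq_zero.1 h with h | h
    · exact K D (Aᶜ \ D) (fun x hx => hx.2) (fun e he => (hmu e he).2.2.1) h
    · exact K (Aᶜ \ D) D (fun x hx hx' => hx'.2 hx) (fun e he => (hmu e he).2.2.2) h

end Pool.Agent.W959.GL.TRIV
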